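import Pool.Agent.H98.BQ.Main
import Pool.Agent.H98.BG.F2

/-!
# Subspaces of codimension `O(log^2(1/α) log log(1/α))` in `4A`, hence in `10A`

For the method see `Pool/Agent/H98/BQ` and the file on MP_169871_nt.
-/

set_option autoImplicit false

namespace Pool.Agent.Results.MP_9c415a_co.QuadraticCodimension

open Finset
open scoped Pointwise

lemma mem_nsmul {G : Type} [AddCommGroup G] [DecidableEq G] (A : Finset G) (k : ℕ) (x : G)
    (h : x ∈ k • A) : ∃ a : Fin k → G, (∀ i, a i ∈ A) ∧ ∑ i, a i = x := by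
  induction k generalizing x with
  | zero =>
    rw [zero_nsmul] at h
    exact ⟨Fin.elim0, fun i => i.elim0, by simpa using (Finset.mem_zero.1 h).symm⟩
  | succ k ih =>
    rw [succ_nsmul] at h
    obtain ⟨y, hy, z, hz, rfl⟩ := Finset.mem_add.1 h
    obtain ⟨a, ha, rfl⟩ := ih y hy
    refine ⟨Fin.snoc a z, ?_, ?_⟩
    · intro i
      refine Fin.lastCases ?_ (fun j => ?_) i
      · simpa using hz
      · simpa using ha j
    · rw [Fin.sum_univ_castSucc]
      simp

lemma up {n : ℕ} (A : Finset (Fin n → ZMod 2)) (hA : A.Nonempty) (v : Fin n → ZMod 2) (j : ℕ)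
    (h : v ∈ j • A) (k : ℕ) (hk : j ≤ k) (hkj : Even (k - j)) : v ∈ k • A := by
  obtain ⟨a, ha⟩ := hA
  obtain ⟨m, hm⟩ := hkj
  have h1 : (k - j) • a = 0 := by
    rw [hm, add_nsmul]
    exact Pool.Agent.H98.BG.F2L.add_self _
  have h2 : v + (k - j) • a ∈ j • A + (k - j) • A :=
    Finset.add_mem_add h (Finset.nsmul_mem_nsmul ha)
  rw [h1, add_zero, ← add_nsmul, Nat.add_sub_cancel' hk] at h2
  exact h2

/-- There is a constant `C` such that for every `n` and every nonempty `A ⊆ F_2^n` of density `α`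
there is a subspace `V` of codimension at most `C L^2 log_2(2 + L)`, `L = log_2(1/α)`, which is
contained in `4A`, and in `kA` for every even `k ≥ 4`, in particular in `10A`. -/
theorem result : ∃ C : ℝ, 0 < C ∧ ∀ (n : ℕ) (A : Finset (Fin n → ZMod 2)), A.Nonempty →
    ∃ V : Submodule (ZMod 2) (Fin n → ZMod 2),
      (n : ℝ) - C * (Real.logb 2 ((2 : ℝ) ^ n / A.card) ^ 2 *
        Real.logb 2 (2 + Real.logb 2 ((2 : ℝ) ^ n / A.card))) ≤ Module.finrank (ZMod 2) V ∧
      ∀ v ∈ V, ∀ k : ℕ, 4 ≤ k → Even k →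
        ∃ a : Fin k → (Fin n → ZMod 2), (∀ i, a i ∈ A) ∧ ∑ i, a i = v := by
  obtain ⟨C, hC, h⟩ := Pool.Agent.H98.BQ.fqd Pool.Agent.H98.BQ.fgdMain
  refine ⟨C, hC, ?_⟩
  intro n A hA
  have : Fact (Nat.Prime 2) := ⟨Nat.prime_two⟩
  have hcA : (0 : ℝ) < A.card := by exact_mod_cast hA.card_pos
  have hcard : (Fintype.card (Fin n → ZMod 2) : ℝ) = 2 ^ n := by
    rw [Fintype.card_fun, ZMod.card, Fintype.card_fin]; push_cast; rfl
  have hcardA : (A.card : ℝ) ≤ 2 ^ n := by
    rw [← hcard]; exact_mod_cast Finset.card_le_univ A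
  have hsub : ∀ s t : Finset (Fin n → ZMod 2), s - t = s + t := by
    intro s t
    ext x
    rw [Finset.mem_sub, Finset.mem_add]
    constructor
    · rintro ⟨y, hy, z, hz, rfl⟩
      refine ⟨y, hy, z, hz, ?_⟩
      rw [sub_eq_add_neg, neg_eq_of_add_eq_zero_left (Pool.Agent.H98.BG.F2L.add_self z)]
    · rintro ⟨y, hy, z, hz, rfl⟩
      refine ⟨y, hy, z, hz, ?_⟩
      rw [sub_eq_add_neg, neg_eq_of_add_eq_zero_left (Pool.Agent.H98.BG.F2L.add_self z)]
  have hlb0 : 0 ≤ Real.logb 2 ((2 : ℝ) ^ n / A.card) := by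
    apply Real.logb_nonneg (by norm_num)
    rw [le_div_iff₀ hcA, one_mul]; exact hcardA
  have hlb1 : 0 ≤ Real.logb 2 (2 + Real.logb 2 ((2 : ℝ) ^ n / A.card)) :=
    Real.logb_nonneg (by norm_num) (by linarith)
  by_cases hd : (2 : ℝ) ^ n / A.card < 2
  · -- density more than one half: `A + A` is everything
    refine ⟨⊤, ?_, ?_⟩
    · have h1 : (Module.finrank (ZMod 2) (⊤ : Submodule (ZMod 2) (Fin n → ZMod 2)) : ℝ) = n := by
        rw [finrank_top, Module.finrank_fintype_fun_eq_card, Fintype.card_fin]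
      rw [h1]
      have h3 : 0 ≤ C * (Real.logb 2 ((2 : ℝ) ^ n / A.card) ^ 2 *
          Real.logb 2 (2 + Real.logb 2 ((2 : ℝ) ^ n / A.card))) := by positivity
      linarith
    · intro v _ k hk hke
      apply mem_nsmul
      have hAA : ∀ x, x ∈ 2 • A := by
        intro x
        rw [two_nsmul]
        by_contra hx
        have hdisj : Disjoint A (A.image fun y => x - y) := by
          rw [Finset.disjoint_left]
          intro y hy hy2
          obtain ⟨z, hz, rfl⟩ := Finset.mem_image.1 hy2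
          exact hx (Finset.mem_add.2 ⟨x - z, hy, z, hz, by abel⟩)
        have h1 := Finset.card_union_of_disjoint hdisj
        rw [Finset.card_image_of_injective _ (sub_right_injective (b := x))] at h1
        have h2 : ((A ∪ A.image fun y => x - y).card : ℝ) ≤ 2 ^ n := by
          rw [← hcard]; exact_mod_cast Finset.card_le_univ _
        rw [h1] at h2
        push_cast at h2
        rw [div_lt_iff₀ hcA] at hd
        linarith
      exact up A hA v 2 (hAA v) k (by omega) (by
        obtain ⟨m, hm⟩ := hke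
        exact ⟨m - 1, by omega⟩)
  · push Not at hd
    obtain ⟨V, hV, hy⟩ := h 2 n A ((2 : ℝ) ^ n / A.card) hA hd (by
      rw [div_mul_cancel₀ _ hcA.ne']
      push_cast
      exact le_rfl)
    refine ⟨V, ?_, ?_⟩
    · have h2 : 0 ≤ Real.log ((2 : ℝ) ^ n / A.card) := Real.log_nonneg (by linarith)
      have hl : ∀ x : ℝ, 0 ≤ Real.log x → Real.log x ≤ Real.logb 2 x := by
        intro x hx
        rw [Real.logb, le_div_iff₀ (Real.log_pos (by norm_num))]
        have h1 : Real.log 2 ≤ 1 := by linarith [Real.log_two_lt_d9]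
        nlinarith
      have h3 := hl _ h2
      have h4 : Real.log (2 + Real.log ((2 : ℝ) ^ n / A.card)) ≤
          Real.logb 2 (2 + Real.logb 2 ((2 : ℝ) ^ n / A.card)) := by
        refine (Real.log_le_log (by linarith) (show 2 + Real.log ((2 : ℝ) ^ n / A.card) ≤
          2 + Real.logb 2 ((2 : ℝ) ^ n / A.card) by linarith)).trans (hl _ ?_)
        exact Real.log_nonneg (by linarith)
      have h5 : Real.log ((2 : ℝ) ^ n / A.card) ^ 2 *
          Real.log (2 + Real.log ((2 : ℝ) ^ n / A.card)) ≤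
          Real.logb 2 ((2 : ℝ) ^ n / A.card) ^ 2 *
            Real.logb 2 (2 + Real.logb 2 ((2 : ℝ) ^ n / A.card)) :=
        mul_le_mul (pow_le_pow_left₀ h2 h3 2) h4 (Real.log_nonneg (by linarith)) (by positivity)
      have h6 := mul_le_mul_of_nonneg_left h5 hC.le
      linarith
    · intro v hv k hk hke
      apply mem_nsmul
      have h1 := hy v hv
      rw [hsub, ← add_nsmul] at h1
      exact up A hA v 4 h1 k hk (by
        obtain ⟨m, hm⟩ := hke
        exact ⟨m - 2, by omega⟩)

end Pool.Agent.Results.MP_9c415a_co.QuadraticCodimension
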